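import Pool.Agent.Helper68.C8.Fin8
import Pool.Agent.Helper68.C9.Cls

/-!
# The `3`-part of the Birch and Swinnerton-Dyer formula for every cubic twist `y² + D y = x³` over
`ℚ(ω)`

`K = ℚ(ω)`, `E_D : y² + D y = x³` for EVERY cube-free element `D ≠ ± 1` of `𝓞 K`. By the second part of
the theorem these are, each one twice (`D` and `-D`), all the elliptic curves over `K` with
`j`-invariant `0` and a point of order three in `E(K)`, up to isomorphism, with the exception of
`y² + y = x³` (`D = ± 1`).

For every such `D` (`Law3 D`): the torsion subgroup of `E_D(K)` is finite and its `3`-part has order
three, the `L`-function of `E_D / K` is entire, the equation is minimal at all finite places, with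
Tamagawa numbers `c_v`, and

`L(E_D / K, 1) = ρ Ω ∏ c_v / (√|disc K| |tors|²)`, `Ω = 2 area(Λ)`,

so that by the conjecture `ρ` should be the order of the Tate-Shafarevich group (if `L(1) ≠ 0`). We
show: `v ρ ≤ 1` for all valuations `v` of `ℂ` above three, and `v ρ = 1` if and only if `E_D(K)` is
finite and the `3`-primary part of `Ш(E_D / K)` is trivial (`Tri D`); in this case
`L(E_D / K, 1) ≠ 0`. So the `3`-part of the conjecture of Birch and Swinnerton-Dyer holds for all `D`
with `Tri D`, and for the others the quotient `ρ` is divisible by the prime above three, as it should.

The criterion (`Crit D`): `Tri D` holds if and only if an explicit linear system over the field with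
three elements, made from the cubic residue symbols between the prime factors of `D`, `ω` and `√-3`,
has only the trivial solutions. (By a companion theorem this is so for exactly
`∏_{i ≥ 0} (1 - 3^{-(2 i + 1)}) = 63.9 %` of all the squarefree `D`.)

Earlier work: if `L(E_D / K, 1) ≠ 0` the full formula for `E_D / K` is a theorem of Burungale and Flach
(curves with complex multiplication over the field of multiplication), and Rubin proved it before
outside `6`. New here: the criterion for every `D`; that `Tri D` implies `L(1) ≠ 0` (for rational `D`
this is also a consequence of the converse theorems of Burungale and Tian), with an elementary proof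
(no Euler systems, no main conjecture); and the integrality of `ρ`. In the starting library (projects
CTK): squarefree `D` congruent to `1` modulo `3` but not modulo `3 √-3`. The five classes of the proof,
up to the sign of `D`:
* `D = 1` modulo `3`, `D ≠ 1` modulo `3 √-3` (the library's class, now with arbitrary exponents);
* `D = ω^(±1)` modulo `3` (files `C2`);
* `D = 1` modulo `3 √-3` (files `C7`; the primitive part of the central value vanishes to a higher
  order modulo the prime above three, the proof uses the second moments of the Eisenstein-Kronecker
  numbers on the residues modulo the prime factors of `D`);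
* `√-3` divides `D` exactly once (files `C6`), `3` divides `D` (files `C5`, `C5K`).

Method: the central value is a finite sum of values of elliptic functions at division points, and
modulo the prime above three (or its square) a recursion over the divisors of the conductor makes it a
(bordered) determinant of the graph of the cubic residue symbols; the same matrix describes the Selmer
group of the isogeny `√-3`; and the Tamagawa numbers are computed in all cases.

Joint work in this run with the seats helper48 (the identity `W3` of the second moments, combinatorial
lemmas for the ramified classes), helper21, helper45, helper52, helper55, helper64, helper74,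
helper80 and helper95 (modules of the class `D = 1` modulo `3 √-3`, the class divisible by `3` and
the assembly; named in the files).
-/

set_option autoImplicit false

open NumberField WeierstrassCurve
open Pool.Agent.Y696.CTK (ED Law3)
open Pool.Agent.Helper68.C8 (CubeFree Crit)

theorem Pool.Agent.Results.MP_9ab903_nt.EveryCubicTwist.result
    (K : Type) [Field K] [NumberField K] [IsCyclotomicExtension {3} ℚ K] [DecidableEq K] :
    (∀ D : 𝓞 K, CubeFree D → Law3 D ∧ Crit D) ∧
    ∀ (E : WeierstrassCurve K) [E.IsElliptic], E.j = 0 →
      (∃ P : E.toAffine.Point, P ≠ 0 ∧ 3 • P = 0) →
        ∃ D : 𝓞 K, (∀ x : 𝓞 K, x ^ 3 ∣ D → IsUnit x) ∧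
          (∃ C : VariableChange K, C • E = ED (D : K)) ∧
          ∀ D' : 𝓞 K, (∀ x : 𝓞 K, x ^ 3 ∣ D' → IsUnit x) →
            (∃ C : VariableChange K, C • E = ED (D' : K)) → D' = D ∨ D' = -D :=
  ⟨fun D hD => Pool.Agent.Helper68.C8.Fin8.all K D hD,
    fun E _ hj ⟨P, hP, h3⟩ => Pool.Agent.Helper68.C9.Cls.cls E hj P hP h3⟩
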