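import Pool.Agent.Helper68.FZ.Law

/-!
# The exact law of the `√-3`-Selmer groups of ALL cubic twists over `ℚ(ω)`, and the `3`-part of the
Birch and Swinnerton-Dyer formula for exactly `63.9 %` of them

`K = ℚ(ω)`, `D` runs through ALL cube-free elements of `𝓞 K`, ordered by the norm, and
`E_D : y² + D y = x³`: these are all the cubic twists of the Fermat curve `x³ + y³ = 1` over `K`, and all
the elliptic curves over `K` with `j`-invariant `0` and a `K`-rational point of order three, each one
twice (`D` and `-D`; see `EveryCubicTwist`).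

`Selmer D` is the Selmer group of the endomorphism `√-3` of `E_D` over `K`, and `Part3 D` says: the
group `E_D(K)` is finite, the Tate-Shafarevich group of `E_D / K` has no element of order a power of
three, the `L`-function is entire with `L(E_D / K, 1) ≠ 0`, and the `3`-part of the leading-term formula
holds (with the Tamagawa numbers of the equation, which is minimal at all finite places).

* For every `r` the proportion of the cube-free `D` with `#Selmer(D) = 3 ^ (r + 1)` tends to
  `prob r = ∏_{i ≥ 0} (1 - 3^{-(2 i + 1)}) / ((3 - 1) (9 - 1) ⋯ (3 ^ r - 1))`, the probability that the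
  corank of a large random symmetric matrix over the field with three elements is `r`; these limits
  sum to one.
* For every cube-free `D ≠ ± 1`: `#Selmer(D) = 3 ^ (r + 1)` for some `r`, and then
  `3 ^ (rank E_D(K)) · #Ш(E_D / K)[3] ≤ 9 ^ r`, so that the rank of `E_D(K)` over `ℤ` is at most `2 r` (over
  `ℤ[ω]`: at most `r`); if `r ≤ 1` and `E_D(K)` is infinite, then `Ш(E_D / K)[3^∞] = 0`; and
  `#Selmer(D) = 3` if and only if `Part3 D`.
* So the proportion of the `D` with `Part3 D` is exactly `prob 0 = 0.6390...`, and it is the exact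
  proportion of the twists with finite `E_D(K)` and trivial `Ш(E_D / K)[3^∞]`: for each of them
  `L(E_D / K, 1) ≠ 0` and the `3`-part of the conjecture holds; and for a proportion of at least
  `prob 0 + prob 1 = 0.9585...` of all `D` the rank over `ℤ[ω]` is at most one, and if it is one, then
  `Ш(E_D / K)[3^∞] = 0`.

Earlier work: where `L(E_D / K, 1) ≠ 0` the formula itself is a theorem of Burungale and Flach; that
`L(E_D / K, 1) ≠ 0` for a positive proportion of the cubic twists over `K`, and the exact law, are new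
as far as we know. (Smith's theorem on the `ℓ^∞`-Selmer groups in twist families of degree `ℓ` is about
a different ordering of the twists; there is no link with `L`-values.)

The proof: the law and the criterion for every `D` (`EveryCubicTwist` of this problem), the order of the
Selmer group as the number of the solutions of an explicit linear system over the field with three
elements in each of the classes of `D` modulo `3 √-3` and of the exponent of `√-3` in `D`
(`C10/SN*.lean`), and the distribution of the matrices of the cubic residue symbols in each of the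
classes, for each fixed product of the primes whose squares divide `D` (`C10/LR*.lean`): each is
distributed as a random symmetric matrix over the field with three elements.

For squarefree `D` prime to `3` and congruent to `1` or `-1` modulo `3` but not modulo `3 √-3` this is
in the starting library (projects CTK, XK, XL). The distribution in the ramified class and the count of
the squarefree elements are joint work with seat helper48, that in the class `D = 1` modulo `3 √-3`
(`C7/D7*.lean`), for arbitrary exponents (`C8/CF*.lean`), the assembly for the cube-free elements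
(`C8/AllCf*.lean`) and the law for all `r` (`C10`) are by seat helper52, the assembly for the squarefree
elements by seats helper48 (`C6/MJ*.lean`) and helper55 (`C8/AllSq.lean`); for the law see
`EveryCubicTwist`. The bound with the Tate-Shafarevich group for `r ≥ 1` is in `FZ/*.lean`.
-/

set_option autoImplicit false

namespace Pool.Agent.Results.MP_9ab903_nt.ExactProportion

open NumberField WeierstrassCurve
open Pool.Agent.TH841.SH.D (Coch)
open Pool.Agent.TH841.NF.D (IsShaCoc Sha)
open Pool.Agent.Helper68.C3 (Part3)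
open scoped Classical

variable {K : Type} [Field K] [NumberField K]

/-- The curve `E_D : y² + D y = x³`. -/
def curve (D : K) : WeierstrassCurve K := ⟨0, 0, D, 0, 0⟩

/-- The Selmer group of the endomorphism `√-3` of `E_D` over `K`: the continuous cocycles with
values in its kernel `{0, (0, 0), (0, -D)}` that are coboundaries in `E_D` at all the places. (The
Galois group acts trivially on the kernel: different cocycles have different classes.) -/
def Selmer (D : K) : Set (Coch (curve D)) :=
  {f | IsShaCoc (curve D) f ∧ ∀ σ, f σ = 0 ∨ ∃ y h, f σ = Affine.Point.some 0 y h}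

/-- The rank of `E_D(K)` over `ℤ`. -/
noncomputable def rank (D : K) : ℕ := Module.finrank ℤ (curve D).toAffine.Point

/-- The elements of `Ш(E_D / K)` killed by `3`. -/
abbrev ShaThree (D : K) : Type := {x : Sha (curve D) // (3 : ℕ) • x = 0}

/-- The rank is at most two, and if it is positive, then no nonzero element of `Ш(E_D / K)` is killed
by a power of three. -/
def Controlled (D : K) : Prop :=
  rank D ≤ 2 ∧ (rank D ≠ 0 → ∀ (n : ℕ) (x : Sha (curve D)), (3 ^ n : ℕ) • x = 0 → x = 0)

/-- `D` is cube-free (so not zero). -/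
def CubeFree (D : 𝓞 K) : Prop := ∀ x : 𝓞 K, x ^ 3 ∣ D → IsUnit x

/-- The proportion, among the cube-free `D` of norm at most `X`, of those with the property `P`. -/
noncomputable def share (P : 𝓞 K → Prop) (X : ℕ) : ℝ :=
  ({D : 𝓞 K | Algebra.norm ℤ D ≤ X ∧ CubeFree D ∧ P D}.ncard : ℝ) /
    ({D : 𝓞 K | Algebra.norm ℤ D ≤ X ∧ CubeFree D}.ncard : ℝ)

/-- `∏_{i ≥ 0} (1 - 3^{-(2 i + 1)}) / ((3 - 1) (9 - 1) ⋯ (3 ^ r - 1))`. -/
noncomputable def prob (r : ℕ) : ℝ :=
  (∏' i : ℕ, (1 - (1 / 3 : ℝ) ^ (2 * i + 1))) / ∏ i ∈ Finset.range r, ((3 : ℝ) ^ (i + 1) - 1)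

/-- one curve -/
theorem one (K : Type) [Field K] [NumberField K] [IsCyclotomicExtension {3} ℚ K] (D : 𝓞 K)
    (h0 : CubeFree D) (h1 : D ≠ 1) (h2 : D ≠ -1) (r : ℕ)
    (hr : (Selmer (D : K)).ncard ≤ 3 ^ (r + 1)) :
    (Finite (ShaThree (D : K)) ∧ 3 ^ rank (D : K) * Nat.card (ShaThree (D : K)) ≤ 9 ^ r) ∧
      (r ≤ 1 → Controlled (D : K)) := by
  obtain ⟨h3, h4, h5⟩ := Pool.Agent.Helper68.FZ.bounds K D h0 h1 h2 r hr
  refine ⟨⟨h3, h4⟩, fun h => ⟨?_, fun hrk => ?_⟩⟩
  · have h6 : 1 ≤ Nat.card (ShaThree (D : K)) := by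
      have hn : Nonempty (ShaThree (D : K)) := ⟨⟨0, smul_zero _⟩⟩
      have hf : Finite (ShaThree (D : K)) := h3
      exact Nat.card_pos
    have h7 : 9 ^ r ≤ 9 ^ 1 := Nat.pow_le_pow_right (by norm_num) h
    have h8 : 3 ^ rank (D : K) * 1 ≤ 3 ^ rank (D : K) * Nat.card (ShaThree (D : K)) :=
      Nat.mul_le_mul_left _ h6
    have h9 : 3 ^ rank (D : K) ≤ 3 ^ 2 := by
      rw [mul_one] at h8
      exact h8.trans (h4.trans (h7.trans (by norm_num)))
    exact (Nat.pow_le_pow_iff_right (by norm_num)).1 h9
  · refine Pool.Agent.Helper68.FZ.no_pow h3 (h5 ?_)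
    rcases Nat.le_one_iff_eq_zero_or_eq_one.1 h with h6 | h6
    · exact Or.inl h6
    · exact Or.inr ⟨h6, hrk⟩

theorem result (K : Type) [Field K] [NumberField K] [IsCyclotomicExtension {3} ℚ K] :
    (∀ r : ℕ, Filter.Tendsto (share fun D : 𝓞 K => (Selmer (D : K)).ncard = 3 ^ (r + 1))
      Filter.atTop (nhds (prob r))) ∧
    Filter.Tendsto (share fun D : 𝓞 K => Part3 D) Filter.atTop (nhds (prob 0)) ∧
    (∀ D : 𝓞 K, CubeFree D → D ≠ 1 → D ≠ -1 →
      (∃ r : ℕ, (Selmer (D : K)).ncard = 3 ^ (r + 1) ∧
        (Finite (ShaThree (D : K)) ∧ 3 ^ rank (D : K) * Nat.card (ShaThree (D : K)) ≤ 9 ^ r) ∧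
        (r ≤ 1 → Controlled (D : K))) ∧
      ((Selmer (D : K)).ncard = 3 ↔ Part3 D)) ∧
    (∀ᶠ X : ℕ in Filter.atTop, 0.958 < share (fun D : 𝓞 K => Controlled (D : K)) X) ∧
    HasSum prob 1 ∧ 0.639 < prob 0 ∧ prob 0 < 0.6391 ∧ 0.958 < prob 0 + prob 1 := by
  have h0 : prob 0 = ∏' i : ℕ, (1 - (1 / 3 : ℝ) ^ (2 * i + 1)) := by
    unfold prob
    rw [Finset.prod_range_zero, div_one]
  obtain ⟨h1, h2, h3⟩ := Pool.Agent.Helper68.C8.AllCf.s_ALLCF K
  rw [← h0] at h1 h2 h3
  have h4 : prob 1 = prob 0 / 2 := by
    unfold prob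
    rw [Finset.prod_range_one, Finset.prod_range_zero, div_one]
    norm_num
  have h5 : 0.958 < prob 0 + prob 1 := by
    rw [h4]
    linarith
  refine ⟨Pool.Agent.Helper68.C10.LR.law_K K, h1, fun D a0 a1 a2 => ?_, ?_,
    Pool.Agent.Y703.XL.t_SUM', h2, h3, h5⟩
  · obtain ⟨⟨r, hr, -⟩, h6⟩ := Pool.Agent.Helper68.C10.LR.one_K K D a0 a1 a2
    have hr' : (Selmer (D : K)).ncard = 3 ^ (r + 1) := hr
    exact ⟨⟨r, hr', one K D a0 a1 a2 r hr'.le⟩, h6⟩
  · refine Pool.Agent.Helper68.FZ.share_r K 1 (fun D : 𝓞 K => Controlled (D : K))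
      (fun D a0 a1 a2 h => ?_) (c := 0.958) ?_
    · obtain ⟨i, hi, h⟩ := h
      have h' : (Selmer (D : K)).ncard = 3 ^ (i + 1) := h
      exact (one K D a0 a1 a2 1 (h'.le.trans (Nat.pow_le_pow_right (by norm_num)
        (by omega)))).2 le_rfl
    · show 0.958 < ∑ i ∈ Finset.range 2, prob i
      rw [Finset.sum_range_succ, Finset.sum_range_one]
      exact h5

end Pool.Agent.Results.MP_9ab903_nt.ExactProportion
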