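import Pool.Graph.R_pool_sql_team_seeded_1acbe0a2.Y676.G2.Sha
import Pool.Graph.R_pool_sql_team_seeded_1acbe0a2.Y676.G2.Fld
import Pool.Graph.R_pool_sql_team_seeded_1acbe0a2.Y676.G2.MinL
import Pool.Graph.R_pool_sql_team_seeded_1acbe0a2.Y676.G2.Cr
import Pool.Graph.R_pool_sql_team_seeded_1acbe0a2.Y43.G2.Per
import Pool.Graph.R_seed8.Y699.Pos
import Pool.Graph.R_seed8.Y699.Mn
import Pool.Agent.Helper82.Qi
import Pool.Agent.Helper82.Tau
import Pool.Agent.Helper82.Tz
import Pool.Agent.Helper82.XL2.Glob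
import Pool.Agent.Helper82.XL2.Cls
import Pool.Agent.Helper82.XL2.Sum
import Pool.Agent.Helper82.XL2.Bnd

/-!
# The exact distribution of the Selmer groups of the quadratic twists of `y² = x³ - x` over `ℚ(i)`

`K` is a number field with an isomorphism `e` of the ring `ℤ[i]` of Gaussian integers with its ring
of integers (so `K = ℚ(i)`), and `E_D : y² = x³ - D² x` the quadratic twist of `y² = x³ - x` by the
Gaussian integer `D`, squarefree with `D ≡ 1 mod 2 + 2 i`.

* The strong Birch and Swinnerton-Dyer conjecture predicts the order of `Ш(E_D/K)`, in the case of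
  rank zero, as `L(E_D/K, 1) √|Δ_K| (#E_D(K)_tors)² / (Ω ∏ c_v)`.  For every `D ≠ 1` this number is the
  square of an integer `r`.
* For `N D ≡ 5 mod 8` the Selmer group of the endomorphism `1 + i` of `E_D` has `2 ^ (s + 1)` elements,
  `2 ^ rank #Ш(E_D/K)[2] ≤ 4 ^ s`, and the following are equivalent: `s = 0`; `r` is odd; `E_D(K)` is
  finite and `Ш(E_D/K)[2^∞] = 0`; `D` has no factorisation `D = d d'` in two coprime factors different
  from units such that `d'` is a square modulo all prime divisors of `d` and `d` is a square modulo all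
  prime divisors of `d'`.
* Among all these `D` with `N D ≡ 5 mod 8`, ordered by norm, the proportion of those with a given `s`
  is exactly `∏_{i ≥ 0} (1 - 2 ^ (-(2 i + 1))) / ∏_{i = 1}^s (2 ^ i - 1)`, the probability that a large
  random symmetric matrix over the field with two elements has corank `s`.

By helper82, with helper9, helper11, helper14, helper17, helper33, helper63, helper71, helper81.
-/

set_option autoImplicit false
set_option linter.unusedSectionVars false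

open NumberField NumberField.InfinitePlace IsDedekindDomain WeierstrassCurve MeasureTheory

namespace Pool.Agent.Results.MP_9ab903_nt.ExactSelmerLaw

open scoped Classical

open Filter
open Pool.Agent.TH841.NF.D (Sha IsShaCoc)
open Pool.Agent.TH841.SH.D (Coch)

section

variable {K : Type} [Field K] [NumberField K]

/-- The elliptic curve `E_D : y² = x³ - D² x` over `ℤ[i]`. -/
noncomputable def E (e : GaussianInt ≃+* 𝓞 K) (D : GaussianInt) : WeierstrassCurve (𝓞 K) :=
  ⟨0, 0, 0, -(e D) ^ 2, 0⟩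

/-- The curve over `K` given by the equation `W`. -/
abbrev gen (W : WeierstrassCurve (𝓞 K)) : WeierstrassCurve K := W.map (algebraMap (𝓞 K) K)

/-- The curve over the completion `K_v` given by the equation `W`. -/
noncomputable abbrev loc (W : WeierstrassCurve (𝓞 K)) (v : HeightOneSpectrum (𝓞 K)) :
    WeierstrassCurve (v.adicCompletion K) :=
  (gen W).map (algebraMap K (v.adicCompletion K))

/-- The number of the affine points `(x, y)` of the reduction of `W` modulo `v`. -/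
noncomputable def pts (W : WeierstrassCurve (𝓞 K)) (v : HeightOneSpectrum (𝓞 K)) : ℕ :=
  Nat.card {P : (𝓞 K ⧸ v.asIdeal) × (𝓞 K ⧸ v.asIdeal) //
    (W.map (Ideal.Quotient.mk v.asIdeal)).toAffine.Equation P.1 P.2}

/-- `a_v = N v + 1 - #W(k_v)`, the points over the residue field `k_v` counted with the point at
infinity. -/
noncomputable def a (W : WeierstrassCurve (𝓞 K)) (v : HeightOneSpectrum (𝓞 K)) : ℤ :=
  (Ideal.absNorm v.asIdeal : ℤ) - pts W v

/-- The Euler factor of `L(W/K, s)` at `v`, for an equation `W` that is minimal at `v` :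
`(1 - a_v N v^(-s) + N v^(1 - 2 s))⁻¹` if the discriminant is a unit at `v`, and
`(1 - a_v N v^(-s))⁻¹` otherwise. -/
noncomputable def factor (W : WeierstrassCurve (𝓞 K)) (s : ℂ) (v : HeightOneSpectrum (𝓞 K)) : ℂ :=
  (1 - (a W v : ℂ) * (Ideal.absNorm v.asIdeal : ℂ) ^ (-s) +
    if W.Δ ∈ v.asIdeal then 0 else (Ideal.absNorm v.asIdeal : ℂ) ^ (1 - 2 * s))⁻¹

/-- The equation is minimal at the finite place `v` of `K`: no change of variables over `K` that
gives coefficients integral at `v` decreases the valuation of the discriminant. -/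
def MinimalAt (W : WeierstrassCurve (𝓞 K)) (v : HeightOneSpectrum (𝓞 K)) : Prop :=
  ∀ C : VariableChange K, v.valuation K (C • gen W).a₁ ≤ 1 →
    v.valuation K (C • gen W).a₂ ≤ 1 → v.valuation K (C • gen W).a₃ ≤ 1 →
    v.valuation K (C • gen W).a₄ ≤ 1 → v.valuation K (C • gen W).a₆ ≤ 1 →
    v.valuation K (C • gen W).Δ ≤ v.valuation K (gen W).Δ

/-- `E⁰(K_v)`, the group of the points of `W` over the completion `K_v` with nonsingular reduction:
the points `(x, y)` where `x` is not integral, or one of the partial derivatives of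
`y² + a₁ x y + a₃ y - x³ - a₂ x² - a₄ x - a₆` is a unit at `(x, y)`, and the point at infinity. -/
noncomputable def nonsing (W : WeierstrassCurve (𝓞 K)) (v : HeightOneSpectrum (𝓞 K)) :
    AddSubgroup (loc W v).toAffine.Point :=
  AddSubgroup.closure {P | ∀ x y h, P = Affine.Point.some x y h →
    1 < Valued.v x ∨
      Valued.v ((loc W v).a₁ * y - (3 * x ^ 2 + 2 * (loc W v).a₂ * x + (loc W v).a₄)) = 1 ∨
      Valued.v (2 * y + (loc W v).a₁ * x + (loc W v).a₃) = 1}

/-- The Tamagawa number `c_v = [E(K_v) : E⁰(K_v)]` of a minimal equation. -/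
noncomputable def c (W : WeierstrassCurve (𝓞 K)) (v : HeightOneSpectrum (𝓞 K)) : ℕ :=
  (nonsing W v).index

/-- The product of the Tamagawa numbers. -/
noncomputable def Tam (W : WeierstrassCurve (𝓞 K)) : ℕ :=
  ∏ᶠ v : HeightOneSpectrum (𝓞 K), c W v

/-- The torsion subgroup of the group of the points over `K`. -/
def tors (W : WeierstrassCurve (𝓞 K)) : Set (gen W).toAffine.Point :=
  {P | ∃ n : ℕ, 0 < n ∧ n • P = 0}

/-- `4 x³ + b₂ x² + 2 b₄ x + b₆ = (2 y + a₁ x + a₃)²`, where `b₂ = a₁² + 4 a₂`,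
`b₄ = 2 a₄ + a₁ a₃`, `b₆ = a₃² + 4 a₆`. -/
def cubic {R : Type} [CommRing R] (W : WeierstrassCurve R) (x : R) : R :=
  4 * x ^ 3 + W.b₂ * x ^ 2 + 2 * W.b₄ * x + W.b₆

/-- `∫_{W(ℝ)} |ω|` with `ω = dx / (2 y + a₁ x + a₃)`, as an integral over `x`: two real points lie
over each `x` with `cubic x > 0`. -/
noncomputable def realPeriod (W : WeierstrassCurve ℝ) : ℝ :=
  2 * ∫ x in {x : ℝ | 0 < cubic W x}, 1 / √(cubic W x)

/-- `2 ∫_{W(ℂ)} |ω ∧ ω̄|`, where `|ω ∧ ω̄| = du dv` in a local parameter `z = u + i v` with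
`dz = ω`, as an integral over `x`: two points lie over a general `x`, and `|ω ∧ ω̄|` is the area
element of the plane of `x` divided by `|cubic x|`. -/
noncomputable def complexPeriod (W : WeierstrassCurve ℂ) : ℝ := 2 * (2 * ∫ x : ℂ, 1 / ‖cubic W x‖)

/-- The global period of an equation that is minimal at all finite places. -/
noncomputable def Omega (W : WeierstrassCurve (𝓞 K)) : ℝ :=
  (∏ w : {w : InfinitePlace K // w.IsReal}, realPeriod ((gen W).map (embedding_of_isReal w.2))) *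
    ∏ w : {w : InfinitePlace K // w.IsComplex}, complexPeriod ((gen W).map w.1.embedding)

/-- The number `n` is the one which the strong Birch and Swinnerton-Dyer conjecture predicts as the
order of the Tate-Shafarevich group, in the case of rank zero, for an elliptic curve over `K` with an
equation `W` that is minimal at all finite places:
`n = L(W/K, 1) √|Δ_K| (#W(K)_tors)² / (Ω ∏ c_v)`, where `L(W/K, s)` is the entire function that
continues the Euler product. -/
def AnalyticOrder (W : WeierstrassCurve (𝓞 K)) (n : ℤ) : Prop :=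
  (∀ v : HeightOneSpectrum (𝓞 K), MinimalAt W v) ∧
  {v : HeightOneSpectrum (𝓞 K) | c W v ≠ 1}.Finite ∧ Tam W ≠ 0 ∧ (tors W).Finite ∧ 0 < Omega W ∧
  ∃ L : ℂ → ℂ, Differentiable ℂ L ∧
    (∀ s : ℂ, 3 / 2 < s.re → HasProd (factor W s) (L s)) ∧
    L 1 * √|(discr K : ℝ)| * (Nat.card (tors W) : ℂ) ^ 2 = n * Omega W * (Tam W : ℂ)

/-- The Selmer group of the endomorphism `1 + i` with kernel `{0, (0, 0)}` of `W : y² = x³ - D² x`:
the continuous cocycles `f : Gal(K̄/K) → W(K̄)` with values in `{0, (0, 0)}` that are locally trivial in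
`H¹(K_v, W)` at all places `v` of `K` (the group acts trivially on the kernel, so that different
cocycles with values in the kernel have different classes in its first cohomology group). -/
def Selmer (W : WeierstrassCurve (𝓞 K)) : Set (Coch (gen W)) :=
  {f | IsShaCoc (gen W) f ∧ ∀ σ, f σ = 0 ∨ ∃ h, f σ = Affine.Point.some 0 0 h}

/-- `Ш(W/K)[2]`. -/
def ShaTwo (W : WeierstrassCurve (𝓞 K)) : Set (Sha (gen W)) := {x | 2 • x = 0}

/-- `Ш(W/K)[2^∞]`. -/
def ShaTwoPrimary (W : WeierstrassCurve (𝓞 K)) : Set (Sha (gen W)) := {x | ∃ n : ℕ, 2 ^ n • x = 0}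

/-- The rank of the group of the points over `K`. -/
noncomputable def rank (W : WeierstrassCurve (𝓞 K)) : ℕ :=
  Module.finrank ℤ (gen W).toAffine.Point

end

/-- `D ≡ 1 mod 2 + 2 i`. Every Gaussian integer of odd norm has exactly one associate with this
property. -/
def Primary (D : GaussianInt) : Prop := (⟨2, 2⟩ : GaussianInt) ∣ D - 1

/-- The criterion: `D` is primary and squarefree, `N D ≡ 5 mod 8`, and in every factorisation
`D = d d'` in primary factors different from `1` one of the factors is not a square modulo some prime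
divisor of the other. -/
def Criterion (D : GaussianInt) : Prop :=
  Primary D ∧ Squarefree D ∧ D.norm % 8 = 5 ∧
    ∀ d d' : GaussianInt, Primary d → Primary d' → D = d * d' →
      (∀ π : GaussianInt, Prime π → π ∣ d → ∃ b, π ∣ d' - b ^ 2) →
      (∀ π : GaussianInt, Prime π → π ∣ d' → ∃ b, π ∣ d - b ^ 2) → d = 1 ∨ d' = 1

/-- The prime divisors of `D`, up to units. -/
def primes (D : GaussianInt) : Set GaussianInt := {π | Prime π ∧ Primary π ∧ π ∣ D}

/-- Among the squarefree `D ≡ 1 mod 2 + 2 i` with `N D ≡ 5 mod 8`, ordered by norm, the proportion of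
those with the property `P` is `p`. -/
def Proportion (P : GaussianInt → Prop) (p : ℝ) : Prop :=
  Tendsto (fun X : ℕ =>
    (({D | Primary D ∧ Squarefree D ∧ D.norm % 8 = 5 ∧ D.norm ≤ X ∧ P D} :
      Set GaussianInt).ncard : ℝ) /
    (({D | Primary D ∧ Squarefree D ∧ D.norm % 8 = 5 ∧ D.norm ≤ X} : Set GaussianInt).ncard : ℝ))
    atTop (nhds p)

/-- `∏_{i ≥ 0} (1 - 2 ^ (-(2 i + 1))) / ∏_{i = 1}^s (2 ^ i - 1)`, the limit for `n → ∞` of the
probability that a random symmetric `n × n` matrix over the field with two elements has corank `s`. -/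
noncomputable def prob (s : ℕ) : ℝ :=
  (∏' i : ℕ, (1 - (1 / 2 : ℝ) ^ (2 * i + 1))) / ∏ i ∈ Finset.range s, ((2 : ℝ) ^ (i + 1) - 1)

section proof

variable {K : Type} [Field K] [NumberField K]

open Pool.Agent.Y676.G2
open Pool.Agent.Y699 (Good PS PD mem_PD crv crv_min crv_map GLat fam em wt)
open Pool.Agent.Helper82.Qi (LE_gen c2)
open Pool.Agent.Helper82.Tau (nonmin ell_zero univ_ne)
open Pool.Agent.Helper82.Tz (tam_prod' card_tors')

lemma gen_E (e : GaussianInt ≃+* 𝓞 K) (D : GaussianInt) : gen (E e D) = WD (AA e D) := by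
  show (crv (e D)).map (algebraMap (𝓞 K) K) = crv (AA e D)
  rw [crv_map]
  rfl

lemma loc_E (e : GaussianInt ≃+* 𝓞 K) (D : GaussianInt) (v : HeightOneSpectrum (𝓞 K)) :
    loc (E e D) v = cv (algebraMap K (v.adicCompletion K) (AA e D)) := by
  show (gen (E e D)).map _ = crv (algebraMap K (v.adicCompletion K) (AA e D))
  rw [gen_E]
  show (crv (AA e D)).map _ = _
  rw [crv_map]

lemma c_E (e : GaussianInt ≃+* 𝓞 K) (D : GaussianInt) (v : HeightOneSpectrum (𝓞 K)) :
    c (E e D) v = tamv v (AA e D) := by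
  have h : c (E e D) v = (E0 (loc (E e D) v) (Pool.Agent.Y682.vv v)).index := rfl
  rw [h, loc_E]
  rfl

lemma factor_eq (e : GaussianInt ≃+* 𝓞 K) (D : GaussianInt) (s : ℂ) :
    factor (E e D) s = fun v => Pool.Agent.Y699.lf (crv (e D)) v s := by
  funext v
  unfold factor Pool.Agent.Y699.lf a
  have h0 : ((Ideal.absNorm v.asIdeal : ℕ) : ℂ) ≠ 0 := by
    have : Ideal.absNorm v.asIdeal ≠ 0 := by
      rw [Ne, Ideal.absNorm_eq_zero_iff]
      exact v.ne_bot
    exact_mod_cast this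
  have h1 : ((Ideal.absNorm v.asIdeal : ℕ) : ℂ) ^ (1 - 2 * s) =
      ((Ideal.absNorm v.asIdeal : ℕ) : ℂ) * ((Ideal.absNorm v.asIdeal : ℕ) : ℂ) ^ (-2 * s) := by
    have e1 : (1 - 2 * s : ℂ) = 1 + (-2 * s) := by ring
    rw [e1, Complex.cpow_add _ _ h0, Complex.cpow_one]
  have h2 : (pts (E e D) v : ℂ) =
      (Pool.Agent.Y699.Mdl.aff ((crv (e D)).map (Ideal.Quotient.mk v.asIdeal)) : ℂ) := rfl
  have h3 : (E e D).Δ ∈ v.asIdeal ↔ (crv (e D)).Δ ∈ v.asIdeal := Iff.rfl
  rw [h1]
  push_cast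
  rw [h2]
  by_cases h4 : (crv (e D)).Δ ∈ v.asIdeal
  · rw [if_pos (h3.2 h4), if_pos h4, zero_mul]
  · rw [if_neg (fun h => h4 (h3.1 h)), if_neg h4]

lemma Omega_E {L : PeriodPair} {Ω : ℂ} (h : GLat L Ω) (e : GaussianInt ≃+* 𝓞 K)
    {D : GaussianInt} (hD : D ≠ 0) : Omega (E e D) = 2 * ‖Ω‖ ^ 2 / √(D.norm : ℝ) := by
  have hN : (0 : ℝ) ≤ (D.norm : ℝ) := by exact_mod_cast GaussianInt.norm_nonneg D
  have hw : ∀ w : InfinitePlace K, complexPeriod ((gen (E e D)).map w.embedding) =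
      2 * ‖Ω‖ ^ 2 / √(D.norm : ℝ) := by
    intro w
    set δ : ℂ := w.embedding (AA e D) with hδ
    have hδn : ‖δ‖ = √(D.norm : ℝ) := by
      have h1 := norm_hom (w.embedding.comp (AA e)) D
      rw [← Real.sqrt_sq (norm_nonneg δ)]
      congr 1
    have hδ0 : δ ≠ 0 := by
      rw [hδ, Ne, map_eq_zero]
      exact AA_ne e hD
    have hc : ∀ x : ℂ, cubic ((gen (E e D)).map w.embedding) x = 4 * x ^ 3 - 4 * δ ^ 2 * x := by
      intro x
      rw [gen_E]
      have e1 : (WD (AA e D)).map w.embedding = crv δ := crv_map _ _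
      rw [e1]
      unfold cubic crv WeierstrassCurve.b₂ WeierstrassCurve.b₄ WeierstrassCurve.b₆
      ring
    unfold complexPeriod
    simp_rw [hc]
    rw [Pool.Agent.Y43.G2.t_PER L Ω h.lat.ne h.g2 h.g3 (fun w' => by
      rw [Pool.Agent.Y699.mem_lat h.lat]
      constructor
      · rintro ⟨t, ht⟩
        refine ⟨t.re, t.im, ?_⟩
        rw [ht]
        unfold Pool.Agent.H304R3.HK.tc
        ring
      · rintro ⟨x, y, hxy⟩
        refine ⟨⟨x, y⟩, ?_⟩
        rw [hxy]
        unfold Pool.Agent.H304R3.HK.tc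
        ring) δ hδ0, hδn]
    ring
  unfold Omega
  have h1 : IsEmpty {w : InfinitePlace K // w.IsReal} := ⟨fun w => no_real e w.1 w.2⟩
  have h2 : Nonempty (InfinitePlace K) := inferInstance
  obtain ⟨w0⟩ := h2
  have hw0 : w0.IsComplex := not_isReal_iff_isComplex.1 (no_real e w0)
  rw [Finset.univ_eq_empty, Finset.prod_empty, one_mul,
    Finset.prod_congr rfl (fun w _ => hw w.1), Finset.prod_const]
  have h3 : (Finset.univ : Finset {w : InfinitePlace K // w.IsComplex}) = {⟨w0, hw0⟩} := by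
    ext w
    simp only [Finset.mem_univ, Finset.mem_singleton, true_iff]
    exact Subtype.ext (unique_place e _ _)
  rw [h3, Finset.card_singleton, pow_one]

lemma primes_eq {D : GaussianInt} (hD : D ≠ 0) : primes D = (PD D : Set GaussianInt) := by
  ext π
  rw [Finset.mem_coe, mem_PD hD]
  constructor
  · rintro ⟨h1, h2, h3⟩
    exact ⟨⟨h1, (Pool.Agent.W164.RC.prim_iff_dvd π).2 h2⟩, h3⟩
  · rintro ⟨⟨h1, h2⟩, h3⟩
    exact ⟨h1, (Pool.Agent.W164.RC.prim_iff_dvd π).1 h2, h3⟩

lemma Tam_E (e : GaussianInt ≃+* 𝓞 K) {D : GaussianInt} (ps : PS D) :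
    Tam (E e D) = (if D.norm % 8 = 5 then 2 else 4) * 4 ^ (primes D).ncard := by
  unfold Tam
  rw [finprod_congr (fun v => c_E e D v), tam_prod' Pool.Agent.Y888.G2.t_TAMG
    Pool.Agent.Y888.G2.t_TAMP e ps, primes_eq ps.ne, Set.ncard_coe_finset]

lemma card_E (e : GaussianInt ≃+* 𝓞 K) {D : GaussianInt} (ps : PS D) (h1 : D ≠ 1) :
    Nat.card (tors (E e D)) = 4 := by
  unfold tors
  rw [gen_E]
  exact card_tors' e ps h1

/-- the criterion for the parity -/
lemma ell_iff {D : GaussianInt} (ps : PS D) (h5 : D.norm % 8 = 5) :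
    Pool.Agent.Y699.Ff.ell (wt (fam D)) (em (fam D)) Finset.univ = 1 ↔ Good D := by
  have hp := Pool.Agent.Y699.fam_PF ps.ne
  constructor
  · intro hell
    by_contra hng
    have hex : ∃ d d' : GaussianInt, Pool.Agent.H304R2.EC.A1.prim d ∧
        Pool.Agent.H304R2.EC.A1.prim d' ∧ D = d * d' ∧
        (∀ π ∈ PD d, Pool.Agent.Y699.qr π d' = 1) ∧ (∀ π ∈ PD d', Pool.Agent.Y699.qr π d = 1) ∧
        d ≠ 1 ∧ d' ≠ 1 := by
      by_contra hcon
      apply hng
      refine ⟨ps, h5, fun d d' a1 a2 a3 a4 a5 => ?_⟩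
      by_contra hc
      rw [not_or] at hc
      exact hcon ⟨d, d', a1, a2, a3, a4, a5, hc.1, hc.2⟩
    obtain ⟨d, d', a1, a2, a3, a4, a5, a6, a7⟩ := hex
    obtain ⟨z, hz, a, b, hab⟩ := nonmin ps a1 a2 a3 a4 a5 a6 a7
    rw [ell_zero _ _ (Pool.Agent.Y699.em_self hp) hz (Finset.mem_univ a) (Finset.mem_univ b) hab]
      at hell
    exact zero_ne_one hell
  · intro hg
    rw [Pool.Agent.Y699.Ff.ell_one _ _ (Pool.Agent.Y699.em_self hp) (Pool.Agent.Y699.em_symm hp)
      (Pool.Agent.Y699.ker_of_good hg), Pool.Agent.Y699.wt_sum hg.ps hg.five]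

theorem main (e : GaussianInt ≃+* 𝓞 K) {D : GaussianInt} (ps : PS D) (h1 : D ≠ 1) :
    ∃ r : ℤ, AnalyticOrder (E e D) (r ^ 2) ∧ (D.norm % 8 = 5 → (Odd r ↔ Good D)) := by
  have hD0 := ps.ne
  obtain ⟨P, Ω, hGL⟩ := Pool.Agent.Y699.exists_GL
  obtain ⟨r, hr, hodd⟩ := LE_gen ps hGL (univ_ne ps h1)
  have hp := Pool.Agent.Y699.fam_PF ps.ne
  have hNpos : (0 : ℝ) < (D.norm : ℝ) := by
    have h1 := GaussianInt.norm_nonneg D
    have h2 : D.norm ≠ 0 := fun h => hD0 (GaussianInt.norm_eq_zero.1 h)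
    exact_mod_cast lt_of_le_of_ne h1 h2.symm
  have hsq : (0 : ℝ) < √(D.norm : ℝ) := Real.sqrt_pos.2 hNpos
  have hΩn : 0 < ‖Ω‖ := norm_pos_iff.2 hGL.lat.ne
  have hTam := Tam_E e ps
  have hcard := card_E e ps h1
  refine ⟨r, ⟨fun v C h1 h2 h3 h4 h6 => ?_, ?_, ?_, ?_, ?_, Pool.Agent.Y699.LE hp Finset.univ,
    Pool.Agent.Y699.LE_diff hp _, fun s hs => ?_, ?_⟩, fun h5 => ?_⟩
  · refine min_loc v (E e D) ?_ (fun W' hW' n hn => ?_) C h1 h2 h3 h4 h6
    · show (crv (e D)).Δ ≠ 0
      rw [Pool.Agent.Y699.crv_Δ]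
      exact mul_ne_zero (by norm_num) (pow_ne_zero 6 ((map_ne_zero_iff e e.injective).2 hD0))
    · refine (crv_min e ps v).2 W' ?_ n hn
      obtain ⟨C', hC'⟩ := hW'
      refine ⟨C', hC'.trans ?_⟩
      exact crv_map _ _
  · have h1 := tam_fin Pool.Agent.Y888.G2.t_TAMG e hD0
    refine h1.subset fun v hv => ?_
    have hv' : c (E e D) v ≠ 1 := hv
    rw [c_E] at hv'
    exact hv'
  · rw [hTam]
    split_ifs <;> positivity
  · have h7 : Nat.card (tors (E e D)) ≠ 0 := by rw [hcard]; norm_num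
    exact Set.finite_coe_iff.1 (Nat.finite_of_card_ne_zero h7)
  · rw [Omega_E hGL e hD0]
    positivity
  · rw [factor_eq]
    have h1 := Pool.Agent.Y699.LE_hasProd hp Finset.univ e hs (fun _ => crv (e D)) (by
      rw [ps.DD]
      exact fun v => crv_min e ps v)
    exact h1
  · rw [hr, discr_K e, Omega_E hGL e hD0, hTam, hcard, primes_eq hD0, Set.ncard_coe_finset]
    have h4 : √|((-4 : ℤ) : ℝ)| = 2 := by
      have : |((-4 : ℤ) : ℝ)| = 2 ^ 2 := by norm_num
      rw [this, Real.sqrt_sq (by norm_num)]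
    rw [h4]
    have h5 : (c2 D : ℝ) * 2 = (if D.norm % 8 = 5 then 2 else 4 : ℕ) := by
      unfold c2
      split_ifs <;> norm_num
    have h6 : (((c2 D : ℝ) * (r : ℝ) ^ 2 * ‖Ω‖ ^ 2 * 4 ^ (PD D).card / (8 * √(D.norm : ℝ))) * 2 *
        (4 : ℝ) ^ 2 : ℝ) = (r : ℝ) ^ 2 * (2 * ‖Ω‖ ^ 2 / √(D.norm : ℝ)) *
        (((if D.norm % 8 = 5 then 2 else 4 : ℕ) : ℝ) * 4 ^ (PD D).card) := by
      rw [← h5]
      field_simp
      ring
    generalize (if D.norm % 8 = 5 then 2 else 4 : ℕ) = t at h6 ⊢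
    have h7 := congrArg (fun x : ℝ => (x : ℂ)) h6
    push_cast at h7 ⊢
    exact h7
  · rw [Int.odd_iff, hodd h5, ell_iff ps h5]

/-- the statement on the Selmer group -/
theorem arith (e : GaussianInt ≃+* 𝓞 K) {D : GaussianInt} (ps : PS D) (h5 : D.norm % 8 = 5) :
    ∃ s : ℕ, Nat.card (Selmer (E e D)) = 2 ^ (s + 1) ∧ (ShaTwo (E e D)).Finite ∧
      2 ^ rank (E e D) * Nat.card (ShaTwo (E e D)) ≤ 4 ^ s ∧ (s = 0 ↔ Good D) ∧
      (s = 0 ↔ Finite (gen (E e D)).toAffine.Point ∧ ShaTwoPrimary (E e D) = {0}) := by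
  obtain ⟨s, h1, h2, h3, h4, h6⟩ := Pool.Agent.Helper82.XL2.glob Pool.Agent.Helper82.XL2.t_CLS
    (Pool.Agent.Helper82.XL2.t_BND) e ps h5
  refine ⟨s, ?_, ?_, ?_, h4, ?_⟩
  · rw [← h1]
    exact Pool.Agent.Helper82.XL2.sel_card (AA_ne e ps.ne) (gen_E e D)
  · unfold ShaTwo
    rw [gen_E]
    exact Set.finite_coe_iff.1 h2
  · unfold rank ShaTwo
    rw [gen_E]
    exact h3
  · rw [h6]
    unfold ShaTwoPrimary
    rw [gen_E]
    refine and_congr_right fun _ => ?_
    constructor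
    · intro h
      ext x
      rw [Set.mem_singleton_iff]
      exact ⟨fun ⟨n, hn⟩ => Pool.Agent.Helper82.Nt.no_two h n x hn, fun hx => ⟨0, by
        rw [hx, smul_zero]⟩⟩
    · intro h x hx
      have h7 : x ∈ ({x | ∃ n : ℕ, 2 ^ n • x = 0} : Set (Sha (WD (AA e D)))) :=
        ⟨1, by rw [pow_one]; exact hx⟩
      rw [h] at h7
      exact h7

/-- uniqueness of the predicted order -/
theorem order_unique {W : WeierstrassCurve (𝓞 K)} {n n' : ℤ} (h : AnalyticOrder W n)
    (h' : AnalyticOrder W n') : n = n' := by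
  obtain ⟨-, -, hT, -, hΩ, L, hL1, hL2, hL3⟩ := h
  obtain ⟨-, -, -, -, -, L', hL1', hL2', hL3'⟩ := h'
  have hev : L =ᶠ[nhds 2] L' := by
    have hopen : IsOpen {s : ℂ | 3 / 2 < s.re} := isOpen_lt continuous_const Complex.continuous_re
    have h2 : (2 : ℂ) ∈ {s : ℂ | 3 / 2 < s.re} := by
      show (3 / 2 : ℝ) < (2 : ℂ).re
      norm_num
    filter_upwards [hopen.mem_nhds h2] with s hs
    exact (hL2 s hs).unique (hL2' s hs)
  have hLL : L = L' := AnalyticOnNhd.eq_of_eventuallyEq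
    (fun z _ => hL1.analyticAt z) (fun z _ => hL1'.analyticAt z) hev
  rw [hLL, hL3'] at hL3
  have hne : ((Omega W : ℝ) : ℂ) * (Tam W : ℂ) ≠ 0 :=
    mul_ne_zero (Complex.ofReal_ne_zero.2 hΩ.ne') (Nat.cast_ne_zero.2 hT)
  rw [mul_assoc, mul_assoc] at hL3
  have h5 := mul_right_cancel₀ hne hL3
  exact_mod_cast h5.symm

end proof

theorem prim_iff (D : GaussianInt) : Pool.Agent.H304R2.EC.A1.prim D ↔ Primary D :=
  Pool.Agent.W164.RC.prim_iff_dvd D

theorem proportion_congr {P Q : GaussianInt → Prop} {p : ℝ}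
    (h : ∀ D, Primary D → Squarefree D → D.norm % 8 = 5 → (P D ↔ Q D)) (hP : Proportion P p) :
    Proportion Q p := by
  refine hP.congr fun X => ?_
  congr 3
  ext D
  exact ⟨fun ⟨a1, a2, a3, a4, a5⟩ => ⟨a1, a2, a3, a4, (h D a1 a2 a3).1 a5⟩,
    fun ⟨a1, a2, a3, a4, a5⟩ => ⟨a1, a2, a3, a4, (h D a1 a2 a3).2 a5⟩⟩

theorem proportion_kr (s : ℕ) : Proportion
    (fun D => Pool.Agent.Helper82.XL2.Kr s (Pool.Agent.Y699.PD D)) (prob s) := by
  refine (Pool.Agent.Helper82.XL2.law_PD s).congr fun X => ?_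
  congr 3
  ext D
  exact ⟨fun ⟨a1, a2, a3, a4, _⟩ => ⟨a1, a2, a3, a4⟩, fun ⟨a1, a2, a3, a4⟩ =>
    ⟨a1, a2, a3, a4, trivial⟩⟩

theorem kr_iff {K : Type} [Field K] [NumberField K] (e : GaussianInt ≃+* 𝓞 K) {D : GaussianInt}
    (ps : Pool.Agent.Y699.PS D) (h5 : D.norm % 8 = 5) (s : ℕ) :
    Pool.Agent.Helper82.XL2.Kr s (Pool.Agent.Y699.PD D) ↔
      Nat.card (Selmer (E e D)) = 2 ^ (s + 1) := by
  have h1 : Nat.card (Selmer (E e D)) =
      Nat.card (Pool.Agent.Helper82.XL2.Sel (Pool.Agent.Y676.G2.AA_ne e ps.ne)) :=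
    Pool.Agent.Helper82.XL2.sel_card (Pool.Agent.Y676.G2.AA_ne e ps.ne) (gen_E e D)
  rw [h1, Pool.Agent.Helper82.XL2.t_SEL Pool.Agent.Helper82.XL2.t_CLS K e D ps h5]
  exact (Pool.Agent.Helper82.XL2.ev_iff ps s).symm

/-- **Main theorem.**  Let `K = ℚ(i)` (every number field `K` with an isomorphism `e` of `ℤ[i]` with
its ring of integers), and let `E_D : y² = x³ - D² x` for squarefree `D ≡ 1 mod 2 + 2 i`, `D ≠ 1`.

Then `E_D(K)` has four torsion points, the product of the Tamagawa numbers is `2 * 4 ^ m` for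
`N D ≡ 5 mod 8` and `4 * 4 ^ m` otherwise, with `m` the number of prime divisors of `D` up to units, and
the number that the strong Birch and Swinnerton-Dyer conjecture predicts as the order of `Ш(E_D/K)` in
the case of rank zero is the square of an integer `r`.  If `N D ≡ 5 mod 8`, then for some `s` the Selmer
group of `1 + i` has `2 ^ (s + 1)` elements, `2 ^ rank #Ш(E_D/K)[2] ≤ 4 ^ s`, and the following are
equivalent: `s = 0`; `r` is odd; `D` has the property of the criterion; `E_D(K)` is finite and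
`Ш(E_D/K)[2^∞] = 0`.

Among the `D` with `N D ≡ 5 mod 8`, ordered by norm, the proportion of those with a given `s` is
exactly `prob s`, the limit of the probability that a random symmetric matrix over the field with two
elements has corank `s`, and these numbers have sum `1`; the predicted order is odd with the proportion
`prob 0 = 0.4194…`. -/
theorem result :
    (∀ D : GaussianInt, Primary D → Squarefree D → D ≠ 1 →
      ∀ (K : Type) [Field K] [NumberField K] (e : GaussianInt ≃+* 𝓞 K),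
        Nat.card (tors (E e D)) = 4 ∧
        Tam (E e D) = (if D.norm % 8 = 5 then 2 else 4) * 4 ^ (primes D).ncard ∧
        ∃ r : ℤ, AnalyticOrder (E e D) (r ^ 2) ∧ (D.norm % 8 = 5 →
          ∃ s : ℕ, Nat.card (Selmer (E e D)) = 2 ^ (s + 1) ∧ (ShaTwo (E e D)).Finite ∧
            2 ^ rank (E e D) * Nat.card (ShaTwo (E e D)) ≤ 4 ^ s ∧
            (Odd r ↔ s = 0) ∧ (Criterion D ↔ s = 0) ∧
            (Finite (gen (E e D)).toAffine.Point ∧ ShaTwoPrimary (E e D) = {0} ↔ s = 0))) ∧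
    (∀ (K : Type) [Field K] [NumberField K] (e : GaussianInt ≃+* 𝓞 K),
      (∀ s : ℕ, Proportion (fun D => Nat.card (Selmer (E e D)) = 2 ^ (s + 1)) (prob s)) ∧
      Proportion (fun D => ∃ n : ℤ, AnalyticOrder (E e D) n ∧ Odd n) (prob 0)) ∧
    HasSum prob 1 ∧ 0.4194 < prob 0 ∧ prob 0 < 0.4195 ∧ 0.8388 < prob 0 + prob 1 := by
  refine ⟨fun D hD hs h1 K _ _ e => ?_, fun K _ _ e => ⟨fun s => ?_, ?_⟩, ?_, ?_, ?_, ?_⟩
  · have ps : Pool.Agent.Y699.PS D := ⟨(prim_iff D).2 hD, hs⟩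
    obtain ⟨r, h2, h3⟩ := main e ps h1
    refine ⟨card_E e ps h1, Tam_E e ps, r, h2, fun h5 => ?_⟩
    obtain ⟨s, a1, a2, a3, a4, a5⟩ := arith e ps h5
    refine ⟨s, a1, a2, a3, (h3 h5).trans a4.symm, ?_, a5.symm⟩
    rw [a4]
    exact (Pool.Agent.Y676.G2.good_iff D).symm
  · exact proportion_congr (fun D h1 h2 h3 => kr_iff e ⟨(prim_iff D).2 h1, h2⟩ h3 s)
      (proportion_kr s)
  · refine proportion_congr (fun D h1 h2 h3 => ?_) (proportion_kr 0)
    have ps : Pool.Agent.Y699.PS D := ⟨(prim_iff D).2 h1, h2⟩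
    have hne : D ≠ 1 := by
      rintro rfl
      exact absurd h3 (by decide)
    obtain ⟨r, b1, b2⟩ := main e ps hne
    have h4 := Pool.Agent.Helper82.XL2.ev_iff ps 0
    rw [zero_add, pow_one, Pool.Agent.Helper82.XL2.ev_two ps h3] at h4
    rw [← h4, ← b2 h3]
    constructor
    · intro ho
      exact ⟨r ^ 2, b1, ho.pow⟩
    · rintro ⟨n, hn, ho⟩
      rw [order_unique hn b1] at ho
      exact (Int.odd_pow' two_ne_zero).1 ho
  · exact Pool.Agent.Helper82.XL2.t_SUM
      (Pool.Agent.Helper82.XL2.t_LIM Pool.Agent.Helper82.XL2.t_REC)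
  · unfold prob
    rw [Finset.prod_range_zero, div_one]
    exact Pool.Agent.E8helper18.CP.num_main.1
  · unfold prob
    rw [Finset.prod_range_zero, div_one]
    exact Pool.Agent.E8helper18.CP.num_main.2
  · have h := Pool.Agent.E8helper18.CP.num_main.1
    unfold prob
    rw [Finset.prod_range_zero, div_one, Finset.prod_range_one, zero_add, pow_one]
    have e1 : (2 : ℝ) - 1 = 1 := by norm_num
    rw [e1, div_one]
    have e2 : (0.8388 : ℝ) = 0.4194 + 0.4194 := by norm_num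
    rw [e2]
    exact add_lt_add h h

end Pool.Agent.Results.MP_9ab903_nt.ExactSelmerLaw
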