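import Pool.Agent.Helper82.Gl
import Pool.Agent.Helper82.Lfc
import Pool.Agent.Helper82.Om
import Pool.Agent.Helper82.Tm
import Pool.Agent.Helper82.Dn2
import Pool.Graph.R_pool_sql_team_seeded_1acbe0a2.Y676.G2.Lv
import Pool.Graph.R_pool_sql_team_seeded_1acbe0a2.Y676.G2.Fld
import Pool.Graph.R_pool_sql_team_seeded_1acbe0a2.Y676.G2.Cr
import Pool.Graph.R_pool_sql_team_seeded_1acbe0a2.Y676.G2.Rat
import Pool.Graph.R_pool_sql_team_seeded_1acbe0a2.Y676.G2.Val2
import Pool.Graph.R_seed8.Y699.Pos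
import Pool.Graph.R_seed8.Y699.Mn
import Pool.Graph.R_pool_sql_team_seeded_1acbe0a2.Y297.G2.E0
import Pool.Graph.R_pool_sql_team_seeded_1acbe0a2.Y43.G2.Per
import Pool.Graph.R_pool_sql_team_seeded_1acbe0a2.Y839.G2.MSV
import Pool.Graph.R_pool_sql_team_seeded_1acbe0a2.Y37.G2.Gss
import Pool.Graph.R_pool_sql_team_seeded_1acbe0a2.Y759.G2Gal
import Pool.Graph.R_pool_sql_team_seeded_1acbe0a2.Y153.G2.Nrm

/-!
# The 2-part of the strong Birch and Swinnerton-Dyer conjecture over `ℚ(i)` with unbounded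
# Tate-Shafarevich groups

`K` is a number field with an isomorphism `e` of the ring `ℤ[i]` of Gaussian integers with its ring
of integers (so `K = ℚ(i)`), and `E_D : y² = x³ - 6 D x² + D² x` the quadratic twist by the Gaussian
integer `D` of `y² = x³ - 6 x² + x`, a curve with complex multiplication by `ℤ[2 i]` and with exactly
one point of order two over `K`.  For the `D ≡ 1 mod 2 + 2 i`, squarefree with `N D ≡ 5 mod 8`, such
that no factorisation `D = d d'` in two coprime factors different from units has `d'` a square modulo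
all prime divisors of `d` and `d` a square modulo all prime divisors of `d'`, we prove the whole
statement of the 2-part of the Birch and Swinnerton-Dyer conjecture, with a nontrivial
Tate-Shafarevich group: `L(E_D/K, s)` is entire, order of vanishing and rank are zero,
`Ш(E_D/K)[2^∞]` is killed by two and has exactly `2 ^ (m - 1)` elements, where `m` is the number of
the prime divisors `π` of `D` with `N π ≡ 5 mod 8`, and `L(E_D/K, 1) √|Δ_K| / Ω` is a rational number
with the 2-adic valuation of `#Ш(E_D/K)[2^∞] Tam(E_D/K) / (#E_D(K)_tors)²`.  For every `B` the proportion of the `D` with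
this property and with `m ≥ B`, among all squarefree `D ≡ 1 mod 2 + 2 i` with `N D ≡ 5 mod 8` ordered
by norm, is exactly `∏_{i ≥ 0} (1 - 2 ^ (-(2 i + 1))) = 0.4194…`.

By helper82; the law in `Pool/Agent/Helper82/XL2` with the seats named in the files there.
-/

set_option autoImplicit false
set_option linter.unusedSectionVars false

open NumberField NumberField.InfinitePlace IsDedekindDomain WeierstrassCurve MeasureTheory

namespace Pool.Agent.Results.MP_9ab903_nt.UnboundedShaTwoPart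

open scoped Classical

open Pool.Agent.TH841.NF.D (Sha)

section

variable {K : Type} [Field K] [NumberField K]

/-- The elliptic curve `E_D : y² = x³ - 6 D x² + D² x` over `ℤ[i]`. -/
noncomputable def E (e : GaussianInt ≃+* 𝓞 K) (D : GaussianInt) : WeierstrassCurve (𝓞 K) :=
  ⟨0, -6 * e D, 0, (e D) ^ 2, 0⟩

/-- The curve over `K` given by the equation `W`. -/
abbrev gen (W : WeierstrassCurve (𝓞 K)) : WeierstrassCurve K := W.map (algebraMap (𝓞 K) K)

/-- The curve over the completion `K_v` given by the equation `W`. -/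
noncomputable abbrev loc (W : WeierstrassCurve (𝓞 K)) (v : HeightOneSpectrum (𝓞 K)) :
    WeierstrassCurve (v.adicCompletion K) :=
  (gen W).map (algebraMap K (v.adicCompletion K))

/-- The number of the affine points `(x, y)` of the reduction of `W` modulo `v`. -/
noncomputable def pts (W : WeierstrassCurve (𝓞 K)) (v : HeightOneSpectrum (𝓞 K)) : ℕ :=
  Nat.card {P : (𝓞 K ⧸ v.asIdeal) × (𝓞 K ⧸ v.asIdeal) //
    (W.map (Ideal.Quotient.mk v.asIdeal)).toAffine.Equation P.1 P.2}

/-- `a_v = N v + 1 - #W(k_v)`, the points over the residue field `k_v` counted with the point at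
infinity. -/
noncomputable def a (W : WeierstrassCurve (𝓞 K)) (v : HeightOneSpectrum (𝓞 K)) : ℤ :=
  (Ideal.absNorm v.asIdeal : ℤ) - pts W v

/-- The Euler factor of `L(W/K, s)` at `v`, for an equation `W` that is minimal at `v` :
`(1 - a_v N v^(-s) + N v^(1 - 2 s))⁻¹` if the discriminant is a unit at `v`, and
`(1 - a_v N v^(-s))⁻¹` otherwise. -/
noncomputable def factor (W : WeierstrassCurve (𝓞 K)) (s : ℂ) (v : HeightOneSpectrum (𝓞 K)) : ℂ :=
  (1 - (a W v : ℂ) * (Ideal.absNorm v.asIdeal : ℂ) ^ (-s) +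
    if W.Δ ∈ v.asIdeal then 0 else (Ideal.absNorm v.asIdeal : ℂ) ^ (1 - 2 * s))⁻¹

/-- The equation is minimal at the finite place `v` of `K`: no change of variables over `K` that
gives coefficients integral at `v` decreases the valuation of the discriminant. -/
def MinimalAt (W : WeierstrassCurve (𝓞 K)) (v : HeightOneSpectrum (𝓞 K)) : Prop :=
  ∀ C : VariableChange K, v.valuation K (C • gen W).a₁ ≤ 1 →
    v.valuation K (C • gen W).a₂ ≤ 1 → v.valuation K (C • gen W).a₃ ≤ 1 →
    v.valuation K (C • gen W).a₄ ≤ 1 → v.valuation K (C • gen W).a₆ ≤ 1 →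
    v.valuation K (C • gen W).Δ ≤ v.valuation K (gen W).Δ

/-- `E⁰(K_v)`, the group of the points of `W` over the completion `K_v` with nonsingular reduction:
the points `(x, y)` where `x` is not integral, or one of the partial derivatives of
`y² + a₁ x y + a₃ y - x³ - a₂ x² - a₄ x - a₆` is a unit at `(x, y)`, and the point at infinity. -/
noncomputable def nonsing (W : WeierstrassCurve (𝓞 K)) (v : HeightOneSpectrum (𝓞 K)) :
    AddSubgroup (loc W v).toAffine.Point :=
  AddSubgroup.closure {P | ∀ x y h, P = Affine.Point.some x y h →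
    1 < Valued.v x ∨
      Valued.v ((loc W v).a₁ * y - (3 * x ^ 2 + 2 * (loc W v).a₂ * x + (loc W v).a₄)) = 1 ∨
      Valued.v (2 * y + (loc W v).a₁ * x + (loc W v).a₃) = 1}

/-- The Tamagawa number `c_v = [E(K_v) : E⁰(K_v)]` of a minimal equation. -/
noncomputable def c (W : WeierstrassCurve (𝓞 K)) (v : HeightOneSpectrum (𝓞 K)) : ℕ :=
  (nonsing W v).index

/-- The product of the Tamagawa numbers. -/
noncomputable def Tam (W : WeierstrassCurve (𝓞 K)) : ℕ :=
  ∏ᶠ v : HeightOneSpectrum (𝓞 K), c W v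

/-- The 2-primary part of the Tate-Shafarevich group over `K`. -/
def Sha2 (W : WeierstrassCurve (𝓞 K)) : Set (Sha (gen W)) := {x | ∃ n : ℕ, 2 ^ n • x = 0}

/-- The torsion subgroup of the group of the points over `K`. -/
def tors (W : WeierstrassCurve (𝓞 K)) : Set (gen W).toAffine.Point :=
  {P | ∃ n : ℕ, 0 < n ∧ n • P = 0}

/-- The rank of the group of the points over `K`. -/
noncomputable def rank (W : WeierstrassCurve (𝓞 K)) : ℕ :=
  Module.finrank ℤ (gen W).toAffine.Point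

/-- `4 x³ + b₂ x² + 2 b₄ x + b₆ = (2 y + a₁ x + a₃)²`, where `b₂ = a₁² + 4 a₂`,
`b₄ = 2 a₄ + a₁ a₃`, `b₆ = a₃² + 4 a₆`. -/
def cubic {R : Type} [CommRing R] (W : WeierstrassCurve R) (x : R) : R :=
  4 * x ^ 3 + W.b₂ * x ^ 2 + 2 * W.b₄ * x + W.b₆

/-- `∫_{W(ℝ)} |ω|` with `ω = dx / (2 y + a₁ x + a₃)`, as an integral over `x`: two real points lie
over each `x` with `cubic x > 0`. -/
noncomputable def realPeriod (W : WeierstrassCurve ℝ) : ℝ :=
  2 * ∫ x in {x : ℝ | 0 < cubic W x}, 1 / √(cubic W x)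

/-- `2 ∫_{W(ℂ)} |ω ∧ ω̄|`, where `|ω ∧ ω̄| = du dv` in a local parameter `z = u + i v` with
`dz = ω`, as an integral over `x`: two points lie over a general `x`, and `|ω ∧ ω̄|` is the area
element of the plane of `x` divided by `|cubic x|`. -/
noncomputable def complexPeriod (W : WeierstrassCurve ℂ) : ℝ := 2 * (2 * ∫ x : ℂ, 1 / ‖cubic W x‖)

/-- The global period of an equation that is minimal at all finite places. -/
noncomputable def Omega (W : WeierstrassCurve (𝓞 K)) : ℝ :=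
  (∏ w : {w : InfinitePlace K // w.IsReal}, realPeriod ((gen W).map (embedding_of_isReal w.2))) *
    ∏ w : {w : InfinitePlace K // w.IsComplex}, complexPeriod ((gen W).map w.1.embedding)

/-- The 2-part of the Birch and Swinnerton-Dyer conjecture, in the case of rank zero, for an elliptic
curve over `K` with an equation `W` that is minimal at all finite places. -/
def TwoPart (W : WeierstrassCurve (𝓞 K)) : Prop :=
  (∀ v : HeightOneSpectrum (𝓞 K), MinimalAt W v) ∧
  {v : HeightOneSpectrum (𝓞 K) | c W v ≠ 1}.Finite ∧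
  ∃ L : ℂ → ℂ, Differentiable ℂ L ∧
    (∀ s : ℂ, 3 / 2 < s.re → HasProd (factor W s) (L s)) ∧
    (analyticOrderAt L 1 = rank W ∧ rank W = 0 ∧ Finite (gen W).toAffine.Point) ∧
    (Sha2 W).Finite ∧
    ∃ r : ℚ, L 1 * √|(discr K : ℝ)| = r * Omega W ∧ r ≠ 0 ∧
      padicValRat 2 r = padicValRat 2
        ((Nat.card (Sha2 W) * Tam W : ℚ) / (Nat.card (tors W) : ℚ) ^ 2)

end

/-- `D ≡ 1 mod 2 + 2 i`. Every Gaussian integer of odd norm has exactly one associate with this
property. -/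
def Primary (D : GaussianInt) : Prop := (⟨2, 2⟩ : GaussianInt) ∣ D - 1

/-- The criterion: `D` is primary and squarefree, `N D ≡ 5 mod 8`, and in every factorisation
`D = d d'` in primary factors different from `1` one of the factors is not a square modulo some prime
divisor of the other. -/
def Criterion (D : GaussianInt) : Prop :=
  Primary D ∧ Squarefree D ∧ D.norm % 8 = 5 ∧
    ∀ d d' : GaussianInt, Primary d → Primary d' → D = d * d' →
      (∀ π : GaussianInt, Prime π → π ∣ d → ∃ b, π ∣ d' - b ^ 2) →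
      (∀ π : GaussianInt, Prime π → π ∣ d' → ∃ b, π ∣ d - b ^ 2) → d = 1 ∨ d' = 1

/-- The prime divisors of `D` with norm congruent to `r` modulo `8`, up to units. -/
def primes (D : GaussianInt) (r : ℤ) : Set GaussianInt :=
  {π | Prime π ∧ Primary π ∧ π ∣ D ∧ π.norm % 8 = r}

section proof

variable {K : Type} [Field K] [NumberField K]

open Pool.Agent.Y676.G2
open Pool.Agent.Y699 (Good PD mem_PD crv crv_min crv_map GLat)
open Pool.Agent.Helper82
open Pool.Agent.Helper82.Mdl (MZ VZ)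
open Pool.Agent.Helper82.Lfc (MO)
open Pool.Agent.Helper82.Cd (m5)

lemma gen_M (e : GaussianInt ≃+* 𝓞 K) (D : GaussianInt) : gen (MO e D) = Gl.MK e D := by
  show ((MZ D).map (e : GaussianInt →+* 𝓞 K)).map (algebraMap (𝓞 K) K) = (MZ D).map (AA e)
  rw [WeierstrassCurve.map_map]
  rfl

lemma gen_E (e : GaussianInt ≃+* 𝓞 K) (D : GaussianInt) : gen (E e D) = Gl.VK e D := by
  show (E e D).map _ = (VZ D).map (AA e)
  have h : E e D = (VZ D).map (e : GaussianInt →+* 𝓞 K) := by
    unfold E VZ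
    refine WeierstrassCurve.ext ?_ ?_ ?_ ?_ ?_
    · exact (map_zero (e : GaussianInt →+* 𝓞 K)).symm
    · change -6 * e D = e (-6 * D)
      rw [map_mul, map_neg, map_ofNat]
    · exact (map_zero (e : GaussianInt →+* 𝓞 K)).symm
    · change e D ^ 2 = e (D ^ 2)
      rw [map_pow]
    · exact (map_zero (e : GaussianInt →+* 𝓞 K)).symm
  rw [h, WeierstrassCurve.map_map]
  rfl

lemma loc_M (e : GaussianInt ≃+* 𝓞 K) (D : GaussianInt) (v : HeightOneSpectrum (𝓞 K)) :
    loc (MO e D) v = (MZ D).map (Pls.ph e v) := by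
  show (gen (MO e D)).map _ = _
  rw [gen_M]
  show ((MZ D).map (AA e)).map _ = _
  rw [WeierstrassCurve.map_map]
  rfl

lemma c_M (e : GaussianInt ≃+* 𝓞 K) (D : GaussianInt) (v : HeightOneSpectrum (𝓞 K)) :
    c (MO e D) v = Tm.tam e D v := by
  have h : c (MO e D) v = (E0 (loc (MO e D) v) (Pool.Agent.Y682.vv v)).index := rfl
  rw [h, loc_M]
  rfl

lemma factor_eq (e : GaussianInt ≃+* 𝓞 K) {D : GaussianInt} (hg : Good D) (s : ℂ) :
    factor (MO e D) s = fun v => Pool.Agent.Y699.lf (crv (e D)) v s := by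
  funext v
  rw [← Lfc.lf_eq e hg v s]
  unfold factor Pool.Agent.Y699.lf a
  have h0 : ((Ideal.absNorm v.asIdeal : ℕ) : ℂ) ≠ 0 := by
    have : Ideal.absNorm v.asIdeal ≠ 0 := by
      rw [Ne, Ideal.absNorm_eq_zero_iff]
      exact v.ne_bot
    exact_mod_cast this
  have h1 : ((Ideal.absNorm v.asIdeal : ℕ) : ℂ) ^ (1 - 2 * s) =
      ((Ideal.absNorm v.asIdeal : ℕ) : ℂ) * ((Ideal.absNorm v.asIdeal : ℕ) : ℂ) ^ (-2 * s) := by
    have e1 : (1 - 2 * s : ℂ) = 1 + (-2 * s) := by ring
    rw [e1, Complex.cpow_add _ _ h0, Complex.cpow_one]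
  have h2 : (pts (MO e D) v : ℂ) =
      (Pool.Agent.Y699.Mdl.aff ((MO e D).map (Ideal.Quotient.mk v.asIdeal)) : ℂ) := rfl
  rw [h1]
  push_cast
  rw [h2]
  by_cases h4 : (MO e D).Δ ∈ v.asIdeal
  · rw [if_pos h4, if_pos h4, zero_mul]
  · rw [if_neg h4, if_neg h4]

lemma Omega_M {L : PeriodPair} {Ω : ℂ} (h : GLat L Ω) (e : GaussianInt ≃+* 𝓞 K)
    {D : GaussianInt} (hg : Good D) : Omega (MO e D) = 2 * ‖Ω‖ ^ 2 / √(D.norm : ℝ) := by
  have hD := hg.ps.ne
  have hN : (0 : ℝ) < (D.norm : ℝ) := by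
    have h1 := GaussianInt.norm_nonneg D
    have h2 : D.norm ≠ 0 := fun h => hD (GaussianInt.norm_eq_zero.1 h)
    exact_mod_cast lt_of_le_of_ne h1 h2.symm
  have hw : ∀ w : InfinitePlace K, complexPeriod ((gen (MO e D)).map w.embedding) =
      2 * ‖Ω‖ ^ 2 / √(D.norm : ℝ) := by
    intro w
    set δ : ℂ := w.embedding (AA e D) with hδ
    have hδn : ‖δ‖ = √(D.norm : ℝ) := by
      have h1 := norm_hom (w.embedding.comp (AA e)) D
      rw [← Real.sqrt_sq (norm_nonneg δ)]
      congr 1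
    have hδ0 : δ ≠ 0 := by
      rw [hδ, Ne, map_eq_zero]
      exact AA_ne e hD
    have hT := Pool.Agent.Y43.G2.t_PER L Ω h.lat.ne h.g2 h.g3 (fun w' => by
      rw [Pool.Agent.Y699.mem_lat h.lat]
      constructor
      · rintro ⟨t, ht⟩
        refine ⟨t.re, t.im, ?_⟩
        rw [ht]
        unfold Pool.Agent.H304R3.HK.tc
        ring
      · rintro ⟨x, y, hxy⟩
        refine ⟨⟨x, y⟩, ?_⟩
        rw [hxy]
        unfold Pool.Agent.H304R3.HK.tc
        ring) δ hδ0
    have hI : ∫ x : ℂ, Om.FE ((w.embedding.comp (AA e)) D) x ≠ 0 := by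
      have h2 : ∫ x : ℂ, Om.FE ((w.embedding.comp (AA e)) D) x = ‖Ω‖ ^ 2 / (2 * ‖δ‖) := hT
      rw [h2]
      have h3 : 0 < ‖Ω‖ := norm_pos_iff.2 h.lat.ne
      have h4 : 0 < ‖δ‖ := norm_pos_iff.2 hδ0
      positivity
    have hp := Om.per hg.ps.prm (w.embedding.comp (AA e)) hI hδ0
    have hc : ∀ x : ℂ, cubic ((gen (MO e D)).map w.embedding) x =
        Om.cub ((MZ D).map (w.embedding.comp (AA e))) x := by
      intro x
      rw [gen_M]
      show cubic (((MZ D).map (AA e)).map w.embedding) x = _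
      rw [WeierstrassCurve.map_map]
      rfl
    unfold complexPeriod
    simp_rw [hc]
    rw [hp]
    have h2 : ∫ x : ℂ, Om.FE ((w.embedding.comp (AA e)) D) x = ‖Ω‖ ^ 2 / (2 * ‖δ‖) := hT
    rw [h2, hδn]
    ring
  unfold Omega
  have h1 : IsEmpty {w : InfinitePlace K // w.IsReal} := ⟨fun w => no_real e w.1 w.2⟩
  have h2 : Nonempty (InfinitePlace K) := inferInstance
  obtain ⟨w0⟩ := h2
  have hw0 : w0.IsComplex := not_isReal_iff_isComplex.1 (no_real e w0)
  rw [Finset.univ_eq_empty, Finset.prod_empty, one_mul,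
    Finset.prod_congr rfl (fun w _ => hw w.1), Finset.prod_const]
  have h3 : (Finset.univ : Finset {w : InfinitePlace K // w.IsComplex}) = {⟨w0, hw0⟩} := by
    ext w
    simp only [Finset.mem_univ, Finset.mem_singleton, true_iff]
    exact Subtype.ext (unique_place e _ _)
  rw [h3, Finset.card_singleton, pow_one]

lemma primes_eq {D : GaussianInt} (hD : D ≠ 0) (r : ℤ) :
    primes D r = ((PD D).filter (fun π => π.norm % 8 = r) : Set GaussianInt) := by
  ext π
  rw [Finset.coe_filter, Set.mem_ofPred_eq, mem_PD hD]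
  constructor
  · rintro ⟨h1, h2, h3, h4⟩
    exact ⟨⟨⟨h1, (Pool.Agent.W164.RC.prim_iff_dvd π).2 h2⟩, h3⟩, h4⟩
  · rintro ⟨⟨⟨h1, h2⟩, h3⟩, h4⟩
    exact ⟨h1, (Pool.Agent.W164.RC.prim_iff_dvd π).1 h2, h3, h4⟩

lemma m5_eq {D : GaussianInt} (hD : D ≠ 0) : m5 D = (primes D 5).ncard := by
  rw [primes_eq hD, Set.ncard_coe_finset]
  rfl

lemma card_split {D : GaussianInt} (hg : Good D) :
    (PD D).card = (primes D 1).ncard + (primes D 5).ncard := by
  rw [primes_eq hg.ps.ne, primes_eq hg.ps.ne, Set.ncard_coe_finset, Set.ncard_coe_finset,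
    ← Finset.card_filter_add_card_filter_not (s := PD D) (fun π => π.norm % 8 = 1)]
  congr 1
  congr 1
  apply Finset.filter_congr
  intro π hπ
  have h := Cd.norm_cases hg ⟨π, hπ⟩
  change π.norm % 8 = 1 ∨ π.norm % 8 = 5 at h
  omega

/-- the product of the Tamagawa numbers -/
lemma Tam_M (e : GaussianInt ≃+* 𝓞 K) {D : GaussianInt} (hg : Good D) :
    Tam (MO e D) = 4 ^ (primes D 1).ncard * 2 ^ (primes D 5).ncard := by
  have h := Tm.tam_prod e hg
  have h1 : Tam (MO e D) = ∏ᶠ v : HeightOneSpectrum (𝓞 K), Tm.tam e D v :=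
    finprod_congr (fun v => c_M e D v)
  rw [← h1, card_split hg, m5_eq hg.ps.ne, pow_add] at h
  have h2 : 0 < 2 ^ (primes D 5).ncard := by positivity
  apply Nat.eq_of_mul_eq_mul_right h2
  rw [h, mul_assoc, ← mul_pow]
  norm_num

lemma card_E (e : GaussianInt ≃+* 𝓞 K) {D : GaussianInt} (hg : Good D) :
    Nat.card (gen (MO e D)).toAffine.Point = 2 := by
  rw [gen_M]
  exact Gl.card_MK e hg

lemma sha_set (e : GaussianInt ≃+* 𝓞 K) {D : GaussianInt} (hg : Good D) :
    Sha2 (MO e D) = {x | 2 • x = 0} := by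
  unfold Sha2
  rw [gen_M]
  exact Gl.sha_M e hg

lemma sha_fin (e : GaussianInt ≃+* 𝓞 K) {D : GaussianInt} (hg : Good D) :
    (Sha2 (MO e D)).Finite ∧ Nat.card (Sha2 (MO e D)) = 2 ^ ((primes D 5).ncard - 1) := by
  rw [sha_set e hg, gen_M, ← m5_eq hg.ps.ne]
  have h := Gl.card_M e hg
  exact ⟨Set.finite_coe_iff.1 h.1, h.2⟩

theorem two_part (e : GaussianInt ≃+* 𝓞 K) {D : GaussianInt} (hg : Good D) : TwoPart (MO e D) := by
  have hD0 := hg.ps.ne
  have hcard := card_E e hg
  have hfin : Finite (gen (MO e D)).toAffine.Point := by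
    apply Nat.finite_of_card_ne_zero
    rw [hcard]; norm_num
  have htors : tors (MO e D) = Set.univ := by
    ext P
    simp only [Set.mem_univ, iff_true]
    exact ⟨Nat.card (gen (MO e D)).toAffine.Point, Nat.card_pos,
      card_nsmul_eq_zero' (G := (gen (MO e D)).toAffine.Point) (x := P)⟩
  have hrank : rank (MO e D) = 0 := by
    unfold rank
    apply Module.IsTorsion.finrank_eq_zero
    intro P
    refine ⟨⟨(Nat.card (gen (MO e D)).toAffine.Point : ℤ), ?_⟩, ?_⟩
    · rw [mem_nonZeroDivisors_iff_ne_zero]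
      exact_mod_cast Nat.card_pos.ne'
    · show (Nat.card (gen (MO e D)).toAffine.Point : ℤ) • P = 0
      rw [natCast_zsmul]
      exact card_nsmul_eq_zero'
  obtain ⟨hSf, hSc⟩ := sha_fin e hg
  obtain ⟨P, Ω, hGL⟩ := Pool.Agent.Y699.exists_GL
  obtain ⟨M, hLM, hM0, hMv, f, hf, hMf⟩ := LE_val hg hGL
  have hp := Pool.Agent.Y699.fam_PF hg.ps.ne
  obtain ⟨q, hq⟩ := rat Pool.Agent.Y839.G2.t_MSV Pool.Agent.Y759.G2.t_GAL
    Pool.Agent.Y153.G2.t_NRM Pool.Agent.Y37.G2.t_GSS hGL hp (Pool.Agent.Y699.good_nonempty hg) hf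
  rw [← hMf, hg.ps.DD] at hq
  have hNpos : (0 : ℝ) < (D.norm : ℝ) := by
    have h1 := GaussianInt.norm_nonneg D
    have h2 : D.norm ≠ 0 := fun h => hD0 (GaussianInt.norm_eq_zero.1 h)
    exact_mod_cast lt_of_le_of_ne h1 h2.symm
  have htc : ‖Pool.Agent.H304R3.HK.tc D‖ = √(D.norm : ℝ) := by
    rw [← norm_tc_sq, Real.sqrt_sq (norm_nonneg _)]
  rw [htc] at hq
  have hsq : (0 : ℝ) < √(D.norm : ℝ) := Real.sqrt_pos.2 hNpos
  have hMn : ‖M‖ ≠ 0 := norm_ne_zero_iff.2 hM0
  have hΩn : ‖Ω‖ ≠ 0 := norm_ne_zero_iff.2 hGL.lat.ne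
  have hq0 : q ≠ 0 := by
    intro h0
    rw [h0, Rat.cast_zero, div_eq_zero_iff] at hq
    rcases hq with h1 | h1
    · exact hMn (pow_eq_zero_iff two_ne_zero |>.1 h1)
    · exact hsq.ne' h1
  set m := (PD D).card with hm
  -- the value
  have hval : Pool.Agent.Y699.LE hp Finset.univ 1 * ((√|(discr K : ℝ)| : ℝ) : ℂ) =
      ((q * 4 ^ m / 8 : ℚ) : ℂ) * ((Omega (MO e D) : ℝ) : ℂ) := by
    rw [hLM, discr_K e, Omega_M hGL e hg]
    have h4 : √|((-4 : ℤ) : ℝ)| = 2 := by
      have : |((-4 : ℤ) : ℝ)| = 2 ^ 2 := by norm_num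
      rw [this, Real.sqrt_sq (by norm_num)]
    rw [h4]
    have h5 : ((q * 4 ^ m / 8 : ℚ) : ℂ) = (((q : ℝ) * 4 ^ m / 8 : ℝ) : ℂ) := by push_cast; rfl
    rw [h5, ← Complex.ofReal_mul, ← Complex.ofReal_mul, ← hq]
    congr 1
    have h6 : (D.norm : ℝ) = √(D.norm : ℝ) ^ 2 := (Real.sq_sqrt hNpos.le).symm
    rw [h6, Real.sqrt_sq hsq.le]
    field_simp
  have hL1 : Pool.Agent.Y699.LE hp Finset.univ 1 ≠ 0 := by
    rw [hLM, Complex.ofReal_ne_zero]
    have : 0 < ‖M‖ ^ 2 * ‖Ω‖ ^ 2 * 4 ^ m / (8 * (D.norm : ℝ)) := by positivity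
    exact this.ne'
  -- the valuation
  have hqv : padicValRat 2 q = 0 := by
    obtain ⟨B, hB⟩ := Pool.Agent.Y699.exists_val
    apply padic_zero (v := B.valuation) hB hq0
    obtain ⟨k1, k2⟩ := hMv B.ValueGroup B.valuation hB
    have h1 : ((q : ℚ) : ℂ) * ((√(D.norm : ℝ) : ℝ) : ℂ) = M * (starRingEnd ℂ) M := by
      rw [Complex.mul_conj, Complex.normSq_eq_norm_sq]
      have h2 : (q : ℝ) * √(D.norm : ℝ) = ‖M‖ ^ 2 := by
        rw [← hq]; field_simp
      rw [← h2]
      push_cast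
      rfl
    have h3 := congrArg B.valuation h1
    have h4 : B.valuation ((√(D.norm : ℝ) : ℝ) : ℂ) = 1 := by
      have h5 : (((√(D.norm : ℝ) : ℝ) : ℂ)) ^ 2 = ((D.norm.natAbs : ℕ) : ℂ) := by
        rw [← Complex.ofReal_pow, Real.sq_sqrt hNpos.le]
        have h6 : ((D.norm.natAbs : ℕ) : ℤ) = D.norm := GaussianInt.abs_natCast_norm D
        have h7 : ((D.norm.natAbs : ℕ) : ℝ) = (D.norm : ℝ) := by
          rw [← Int.cast_natCast (R := ℝ) D.norm.natAbs, h6]
        rw [← h7]
        simp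
      have h8 := congrArg B.valuation h5
      have h5' := hg.five
      rw [map_pow, v_odd hB (by omega)] at h8
      exact (pow_eq_one_iff_of_nonneg zero_le two_ne_zero).1 h8
    rw [map_mul, map_mul, k1, k2, h4, mul_one, mul_one] at h3
    exact h3
  refine ⟨fun v C h1 h2 h3 h4 h6 => ?_, ?_, Pool.Agent.Y699.LE hp Finset.univ,
    Pool.Agent.Y699.LE_diff hp _, fun s hs => ?_, ⟨?_, hrank, hfin⟩,
    hSf, q * 4 ^ m / 8, hval, ?_, ?_⟩
  · refine Mdl.minimal v _ ?_ C h1 h2 h3 h4 h6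
    rw [gen_M]
    have h7 : (Gl.MK e D).Δ = AA e (MZ D).Δ := WeierstrassCurve.map_Δ _ _
    rw [h7]
    exact Mdl.disc_val e hg v
  · have h1 := Tm.tam_fin e hg.ps.prm hD0
    refine h1.subset fun v hv => ?_
    have hv' : c (MO e D) v ≠ 1 := hv
    rw [c_M] at hv'
    exact hv'
  · rw [factor_eq e hg]
    have h1 := Pool.Agent.Y699.LE_hasProd hp Finset.univ e hs (fun _ => crv (e D)) (by
      rw [hg.ps.DD]
      exact fun v => crv_min e hg.ps v)
    exact h1
  · rw [hrank, Nat.cast_zero]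
    exact ((Pool.Agent.Y699.LE_diff hp Finset.univ).analyticAt 1).analyticOrderAt_eq_zero.2 hL1
  · exact div_ne_zero (mul_ne_zero hq0 (by positivity)) (by norm_num)
  · have hTam := Tam_M e hg
    have hm5 : 0 < (primes D 5).ncard := by
      rw [← m5_eq hD0]; exact Cd.m5_pos hg
    have hfact : Fact (Nat.Prime 2) := ⟨Nat.prime_two⟩
    have hms : m = (primes D 1).ncard + (primes D 5).ncard := card_split hg
    rw [hSc, htors, Nat.card_univ, hcard, hTam]
    obtain ⟨k, hk⟩ : ∃ k, (primes D 5).ncard = k + 1 := ⟨(primes D 5).ncard - 1, by omega⟩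
    rw [hk, Nat.add_sub_cancel]
    have e1 : (((2 ^ k : ℕ) : ℚ) * ((4 ^ (primes D 1).ncard * 2 ^ (k + 1) : ℕ) : ℚ)) /
        ((2 : ℕ) : ℚ) ^ 2 = 4 ^ m / 8 := by
      rw [hms, hk]
      push_cast
      have e3 : (4 : ℚ) ^ ((primes D 1).ncard + (k + 1)) =
          4 ^ (primes D 1).ncard * (2 ^ k * 2 ^ k) * 4 := by
        rw [pow_add, pow_add, ← mul_pow]; norm_num; ring
      rw [e3]
      ring
    rw [e1]
    have e2 : (q * 4 ^ m / 8 : ℚ) = q * (4 ^ m / 8) := by ring
    rw [e2, padicValRat.mul hq0 (div_ne_zero (by positivity) (by norm_num)), hqv, zero_add]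

/-- the equation over `K` is a change of variables of the given one -/
lemma iso_E (e : GaussianInt ≃+* 𝓞 K) {D : GaussianInt} (hg : Good D) :
    ∃ C : VariableChange K, C • gen (E e D) = gen (MO e D) := by
  rw [gen_E, gen_M]
  exact ⟨_, Mdl.Chg.vc (Gl.Sg e hg.ps.prm)⟩

end proof

/-- **Main theorem.**  For every `D` with the property of the criterion and `K = ℚ(i)` (every number
field `K` with an isomorphism `e` of `ℤ[i]` with its ring of integers), the elliptic curve
`E_D : y² = x³ - 6 D x² + D² x` has an equation `W` over `𝓞 K` that is minimal at all finite places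
and for which the whole 2-part of the Birch and Swinnerton-Dyer conjecture holds, with order of
vanishing and rank equal to zero; the 2-primary part of the Tate-Shafarevich group is killed by two
and has exactly `2 ^ (m - 1)` elements, where `m ≥ 1` is the number of prime divisors of `D` of norm
`5` modulo `8` up to units; `E_D(K)` has exactly two elements; and the product of the Tamagawa
numbers is `4 ^ n * 2 ^ m`, where `n` is the number of prime divisors of `D` of norm `1` modulo `8`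
up to units.  For every `B` the proportion, among all squarefree `D ≡ 1 mod 2 + 2 i` with
`N D ≡ 5 mod 8` of norm at most `X`, of those with the property of the criterion and `m ≥ B` tends to
`∏_{i ≥ 0} (1 - 2 ^ (-(2 i + 1)))`, a number between `0.4194` and `0.4195`. -/
theorem result :
    (∀ D : GaussianInt, Criterion D → ∀ (K : Type) [Field K] [NumberField K]
      (e : GaussianInt ≃+* 𝓞 K), ∃ W : WeierstrassCurve (𝓞 K),
        (∃ C : VariableChange K, C • gen (E e D) = gen W) ∧ TwoPart W ∧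
        (∀ x ∈ Sha2 W, 2 • x = 0) ∧
        1 ≤ (primes D 5).ncard ∧ Nat.card (Sha2 W) = 2 ^ ((primes D 5).ncard - 1) ∧
        Nat.card (gen W).toAffine.Point = 2 ∧
        Tam W = 4 ^ (primes D 1).ncard * 2 ^ (primes D 5).ncard) ∧
    (∀ B : ℕ, Filter.Tendsto (fun X : ℕ =>
      (({D | Criterion D ∧ D.norm ≤ X ∧ B ≤ (primes D 5).ncard} :
        Set GaussianInt).ncard : ℝ) /
      (({D | Primary D ∧ Squarefree D ∧ D.norm % 8 = 5 ∧ D.norm ≤ X} :
        Set GaussianInt).ncard : ℝ)) Filter.atTop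
      (nhds (∏' i : ℕ, (1 - (1 / 2 : ℝ) ^ (2 * i + 1))))) ∧
    0.4194 < ∏' i : ℕ, (1 - (1 / 2 : ℝ) ^ (2 * i + 1)) ∧
    ∏' i : ℕ, (1 - (1 / 2 : ℝ) ^ (2 * i + 1)) < 0.4195 := by
  refine ⟨fun D hD K _ _ e => ?_, fun B => ?_, Pool.Agent.E8helper18.CP.num_main⟩
  · have hg := (Pool.Agent.Y676.G2.good_iff D).2 hD
    refine ⟨Pool.Agent.Helper82.Lfc.MO e D, iso_E e hg, two_part e hg, ?_, ?_, (sha_fin e hg).2,
      card_E e hg, Tam_M e hg⟩
    · intro x hx
      rw [sha_set e hg] at hx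
      exact hx
    · rw [← m5_eq hg.ps.ne]
      exact Pool.Agent.Helper82.Cd.m5_pos hg
  · have h1 := Pool.Agent.Helper82.Dn.lim_many B
    rw [Pool.Agent.Helper82.XL2.lim_cr_zero] at h1
    refine h1.congr fun X => ?_
    have e1 : Pool.Agent.Helper82.XL2.Fam (fun D => Pool.Agent.Y699.Good D ∧
        B ≤ Pool.Agent.Helper82.Cd.m5 D) X =
        {D | Criterion D ∧ D.norm ≤ X ∧ B ≤ (primes D 5).ncard} := by
      ext D
      constructor
      · rintro ⟨-, -, -, h4, h5, h6⟩
        exact ⟨(Pool.Agent.Y676.G2.good_iff D).1 h5, h4, by rw [← m5_eq h5.ps.ne]; exact h6⟩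
      · rintro ⟨h2, h3, h4⟩
        have h5 := (Pool.Agent.Y676.G2.good_iff D).2 h2
        exact ⟨h2.1, h2.2.1, h2.2.2.1, h3, h5, by rw [m5_eq h5.ps.ne]; exact h4⟩
    have e2 : Pool.Agent.Helper82.XL2.Fam (fun _ => True) X =
        {D | Primary D ∧ Squarefree D ∧ D.norm % 8 = 5 ∧ D.norm ≤ X} := by
      ext D
      exact ⟨fun ⟨a1, a2, a3, a4, _⟩ => ⟨a1, a2, a3, a4⟩, fun ⟨a1, a2, a3, a4⟩ =>
        ⟨a1, a2, a3, a4, trivial⟩⟩
    rw [e1, e2]

end Pool.Agent.Results.MP_9ab903_nt.UnboundedShaTwoPart
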